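import Pool.Agent.Helper50.GX.Defs

set_option autoImplicit false

namespace Pool.Agent.Helper50.GX

open Polynomial

theorem st_REL (hPROD : ST_PROD) (hDET : ST_DET) (hDIV : ST_DIV) (hORD : ST_ORD)
    (hPING : ST_PING) : ST_REL := by
  intro K _ σ hσ a b ha hb d j hj hjd hred hFil
  obtain ⟨p1, p2, p3, p4, p5⟩ := hPROD K σ hσ a b ha hb j
  set s : K[X] := (1 + X) ^ j with hs
  set f : Mat K := wd σ a b j with hf
  set h : Mat K := wr σ a b j with hh
  have h1X : (1 + X : K[X]) ≠ 0 := by
    intro h0
    have := congrArg (fun p : K[X] => p.coeff 0) h0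
    simp at this
  have hs0 : s ≠ 0 := pow_ne_zero _ h1X
  have hsc : s.coeff 0 = 1 := by
    rw [hs, Polynomial.coeff_zero_eq_eval_zero]
    simp
  have hdet := hDET K[X] f h s hs0 p1 p2
  set R : K[X] := f.trace - h.trace with hR
  have hRc : ∀ t, R.coeff t = (∑ i, (f i i).coeff t) -
      (if t ≤ j then ∑ i, (f i i).coeff (j - t) else 0) := by
    intro t
    rw [hR, Polynomial.coeff_sub]
    simp only [Matrix.trace, Matrix.diag_apply, Polynomial.finsetSum_coeff]
    congr 1
    rw [Finset.sum_congr rfl fun i _ => p3 i i t]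
    split_ifs
    · rfl
    · simp
  have hdvd : X ^ d ∣ s ^ 2 * R := by
    rw [Polynomial.X_pow_dvd_iff]
    intro t ht
    rw [← hdet]
    exact hORD K d t _ hFil ht
  have hcop : IsCoprime (X ^ d : K[X]) (s ^ 2) := by
    apply IsCoprime.pow
    have h0 : (X : K[X]) ∣ s - 1 := by
      rw [Polynomial.X_dvd_iff]
      simp [hsc]
    obtain ⟨q, hq⟩ := h0
    exact ⟨-q, 1, by linear_combination hq⟩
  have hRd : X ^ d ∣ R := hcop.dvd_of_dvd_mul_left hdvd
  rw [Polynomial.X_pow_dvd_iff] at hRd
  have hR0 : R = 0 := by
    ext t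
    rw [Polynomial.coeff_zero]
    by_cases ht : t < d
    · exact hRd t ht
    · by_cases htj : t ≤ j
      · by_cases ht2 : j - t < d
        · have h1 := hRd (j - t) ht2
          rw [hRc, if_pos (by omega), show j - (j - t) = t by omega] at h1
          rw [hRc, if_pos htj]
          linear_combination -h1
        · have h2 : j - t = t := by omega
          rw [hRc, if_pos htj, h2, sub_self]
      · rw [hRc, if_neg htj]
        simp only [p4 _ _ t (by omega), Finset.sum_const_zero, sub_zero]
  rw [hR0, mul_zero] at hdet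
  have hrel : (f - s • (1 : Mat K)).map (Polynomial.map (σ : K →+* K)) * Zm =
      Zm * (f - s • (1 : Mat K)) := by
    have e1 : (f - s • (1 : Mat K)).map (Polynomial.map (σ : K →+* K)) =
        f.map (Polynomial.map (σ : K →+* K)) - s • (1 : Mat K) := by
      ext1 i k
      simp only [Matrix.map_apply, Matrix.sub_apply, Matrix.smul_apply, smul_eq_mul,
        Polynomial.map_sub, Polynomial.map_mul]
      congr 1
      have e2 : Polynomial.map (σ : K →+* K) s = s := by
        rw [hs]
        simp
      rw [e2]
      congr 1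
      by_cases hik : i = k
      · subst hik
        simp
      · rw [Matrix.one_apply_ne hik, Polynomial.map_zero]
    rw [e1, Matrix.sub_mul, Matrix.mul_sub, p5]
    congr 1
    rw [Matrix.smul_mul, Matrix.mul_smul, Matrix.one_mul, Matrix.mul_one]
  have hzero : f - s • (1 : Mat K) = 0 := by
    by_contra hne
    exact hDIV K σ _ hrel hne hdet
  obtain ⟨r, c, hrc⟩ := hPING K σ hσ a b ha hb j hj hred
  apply hrc
  have e3 : f r c = s * (1 : Mat K) r c := by
    have := congrArg (fun M : Mat K => M r c) hzero
    simp only [Matrix.sub_apply, Matrix.smul_apply, smul_eq_mul, Matrix.zero_apply] at this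
    linear_combination this
  show (f r c).eval 1 = 0
  rw [e3, Polynomial.eval_mul]
  have e4 : s.eval 1 = 0 := by
    rw [hs]
    simp only [Polynomial.eval_pow, Polynomial.eval_add, Polynomial.eval_one, Polynomial.eval_X]
    have : (1 : K) + 1 = 0 := by
      have := hσ.two
      rw [← this]; norm_num
    rw [this]
    exact zero_pow (by omega)
  rw [e4, zero_mul]

end Pool.Agent.Helper50.GX
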